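import Pool.Agent.Helper8.Hyb.Lift

/-!
# Hybrid step: the costs `c3`, `c4`, `c8`
-/

set_option autoImplicit false

namespace Pool.Agent.Helper80.Kak

open Finset Pool.Agent.Helper8.Kak Pool.Agent.Helper6.Kak Pool.Agent.Helper90.Kak
  Pool.Agent.Helper81.Kak Pool.Agent.Helper8.Hyb

variable {m M : ℕ} {G : Geo m M} (S : PSys G)

theorem A_eqY : S.A = Ex (pY S) (fun y => gap G.δ (S.k (d0 y))) :=
  (Ex_MP (MP_d0 S.l (pr S)) (fun ω => gap G.δ (S.k ω))).symm

theorem pos0 {y : YY S.Ω} (hy : 0 < pY S y) : 0 < S.p (d0 y) :=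
  (MP_d0 S.l (pr S)).pos (hpY S).1 hy

theorem kkY {y y' : YY S.Ω} (hy : 0 < pY S y) (hy' : 0 < pY S y') (h : VHY S .K y y') :
    S.k (d0 y) = S.k (d0 y') := S.kK _ _ (pos0 S hy) (pos0 S hy') h

theorem log6 : Real.log 6 ≤ 2 := by
  have h : (6 : ℝ) ≤ Real.exp 1 ^ (2 : ℕ) := by
    have h1 := Real.exp_one_gt_d9
    calc (6 : ℝ) ≤ (2.7182818283 : ℝ) ^ 2 := by norm_num
      _ ≤ Real.exp 1 ^ 2 := by gcongr
  rw [← Real.exp_nat_mul] at h
  have h2 := Real.log_le_log (by norm_num) h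
  rw [Real.log_exp] at h2
  norm_num at h2
  linarith

theorem c3' {m : ℕ} : ∃ N : ℝ, 0 ≤ N ∧ ∀ (M : ℕ) (G : Geo m M) (S : PSys G),
    HH (pY S) (VHY S) {.K, .l0, .l1, .T0} - HH (pY S) (VHY S) {.K, .l0, .l1} ≤
      Real.log M - S.A + N * (S.κ + S.ι + ell M) := by
  refine ⟨4, by norm_num, fun M G S => ?_⟩
  have key := CE_meet (hpY S) G (({.K, .l0, .l1} : Finset VH).inf (VHY S))
    (fun y => S.l (S.σ (d0 y))) (fun y => S.l (d0 y)) (fun y => S.T (d0 y))
    (fun y => S.k (d0 y)) ?_ ?_ ?_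
  · have e1 : HH (pY S) (VHY S) {.K, .l0, .l1, .T0} - HH (pY S) (VHY S) {.K, .l0, .l1}
        = CE (pY S) (VHY S .T0) (({.K, .l0, .l1} : Finset VH).inf (VHY S)) :=
      cost_eq _ _ _ (by decide)
    rw [e1]
    have x1 := XX_ge S
    unfold XX at x1
    have key' : CE (pY S) (VHY S .T0) (({.K, .l0, .l1} : Finset VH).inf (VHY S)) ≤
        Real.log M - S.A + Real.log 6 := by
      rw [A_eqY S]
      exact key
    linarith [log6]
  · intro z z' hz hz' g
    rw [inf_rel] at g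
    simp only [Finset.mem_insert, Finset.mem_singleton, forall_eq_or_imp, forall_eq] at g
    obtain ⟨g1, g2, g3⟩ := g
    exact ⟨kkY S hz hz' g1, g3, g2⟩
  · intro z hz
    exact (lk S hz hz).p0
  · intro z hz
    rcases S.ang _ (pos0 S hz) with ha | ⟨i, hi⟩
    · exact Or.inl ha
    · exact Or.inr ⟨i, by rw [abs_sub_comm]; exact hi⟩

theorem c4' {m : ℕ} : ∃ N : ℝ, 0 ≤ N ∧ ∀ (M : ℕ) (G : Geo m M) (S : PSys G),
    HH (pY S) (VHY S) {.K, .l0, .l1, .w, .tw, .T1}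
      - HH (pY S) (VHY S) {.K, .l0, .l1, .w, .tw} ≤
      Real.log M - S.A + N * (S.κ + S.ι + ell M) := by
  refine ⟨4, by norm_num, fun M G S => ?_⟩
  have key := CE_formT (hpY S) G (({.K, .l0, .l1, .w, .tw} : Finset VH).inf (VHY S))
    (fun y => S.l (d0 y)) (fun y => S.l (S.σ (d0 y))) (fun y => S.T (d1 y)) (fun y => vtw S y)
    (fun y => S.k (d0 y)) ?_ ?_
  · have e1 : HH (pY S) (VHY S) {.K, .l0, .l1, .w, .tw, .T1}
        - HH (pY S) (VHY S) {.K, .l0, .l1, .w, .tw}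
        = CE (pY S) (VHY S .T1) (({.K, .l0, .l1, .w, .tw} : Finset VH).inf (VHY S)) :=
      cost_eq _ _ _ (by decide)
    rw [e1]
    have x1 := XX_ge S
    unfold XX at x1
    have key' : CE (pY S) (VHY S .T1) (({.K, .l0, .l1, .w, .tw} : Finset VH).inf (VHY S)) ≤
        Real.log M - S.A + Real.log 3 := by
      rw [A_eqY S]
      exact key
    have h36 : Real.log 3 ≤ Real.log 6 := Real.log_le_log (by norm_num) (by norm_num)
    linarith [log6]
  · intro z z' hz hz' g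
    rw [inf_rel] at g
    simp only [Finset.mem_insert, Finset.mem_singleton, forall_eq_or_imp, forall_eq] at g
    obtain ⟨g1, g2, g3, g4, g5⟩ := g
    have e : ∀ y : YY S.Ω, vtw S y - ((S.T (d1 y) : ℕ) : ℤ) = vB S y := by
      intro y
      unfold vtw
      ring
    refine ⟨kkY S hz hz' g1, g2, g3, g5, ?_⟩
    rw [e, e]
    exact g4
  · intro z hz
    exact S.ang _ (pos0 S hz)

theorem c8' {m : ℕ} : ∃ N : ℝ, 0 ≤ N ∧ ∀ (M : ℕ) (G : Geo m M) (S : PSys G),
    HH (pY S) (VHY S) {.K, .l0, .l1, .tw, .w} - HH (pY S) (VHY S) {.K, .l0, .l1, .tw} ≤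
      S.A + N * (S.κ + S.ι + ell M) := by
  refine ⟨Real.log 18 + m * Real.log 5, by positivity, fun M G S => ?_⟩
  have key := CE_segment (hpY S) G (({.K, .l0, .l1, .tw} : Finset VH).inf (VHY S))
    (fun y => frm G.x G.v (S.l (d0 y)) (S.T (d1 y)) (vB S y) (G.v (S.l (S.σ (d0 y)))))
    (fun y i => G.x (S.l (d0 y)) i + (vtw S y : ℝ) / M * G.v (S.l (S.σ (d0 y))) i)
    (fun y i => G.v (S.l (d0 y)) i - G.v (S.l (S.σ (d0 y))) i)
    (fun y => ht (S.T (d1 y))) (fun y => S.k (d0 y)) ?_ ?_ ?_ ?_ ?_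
  · have e1 : HH (pY S) (VHY S) {.K, .l0, .l1, .tw, .w} - HH (pY S) (VHY S) {.K, .l0, .l1, .tw}
        = CE (pY S) (VHY S .w) (({.K, .l0, .l1, .tw} : Finset VH).inf (VHY S)) :=
      cost_eq _ _ _ (by decide)
    rw [e1]
    have x1 := XX_ge S
    unfold XX at x1
    have key' : CE (pY S) (VHY S .w) (({.K, .l0, .l1, .tw} : Finset VH).inf (VHY S)) ≤
        S.A + (Real.log 18 + m * Real.log 5) := by
      rw [A_eqY S]
      exact key
    have h0 : 0 ≤ Real.log 18 + m * Real.log 5 := by positivity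
    have h1 := mul_le_mul_of_nonneg_left x1 h0
    linarith
  · intro z hz
    exact S.kJ _ (pos0 S hz)
  · intro z z' hz hz' g
    rw [inf_rel] at g
    simp only [Finset.mem_insert, Finset.mem_singleton, forall_eq_or_imp, forall_eq] at g
    obtain ⟨g1, g2, g3, g4⟩ := g
    have g2' : S.l (d0 z) = S.l (d0 z') := g2
    have g3' : S.l (S.σ (d0 z)) = S.l (S.σ (d0 z')) := g3
    have g4' : vtw S z = vtw S z' := g4
    refine ⟨kkY S hz hz' g1, ?_, ?_⟩
    · funext i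
      rw [g2', g3', g4']
    · funext i
      rw [g2', g3']
  · intro z hz i
    have hM := M_pos G
    have e : (vB S z : ℝ) = (vtw S z : ℝ) - ((S.T (d1 z) : ℕ) : ℝ) := by
      unfold vtw
      push_cast
      ring
    unfold frm pnt
    rw [e]
    unfold ht
    field_simp
    ring
  · intro z hz
    exact ⟨ht_nonneg _, (ht_lt_one _).le⟩
  · intro z hz i
    have h0 := pos0 S hz
    exact S.tub _ _ h0 (S.mp.pos S.hp.1 h0) (S.Kσ _ h0) i

end Pool.Agent.Helper80.Kak
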