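import Pool.Agent.Helper6.Kak.Defs
import Pool.Agent.Helper6.Kak.Pair
import Pool.Agent.Helper8.Kak.Move
import Pool.Agent.Helper81.Kak.CEl

/-!
# Interval lemmas: intersection heights given lines and tubes
-/

set_option autoImplicit false

namespace Pool.Agent.Helper80.Kak

open Pool.Agent.Helper8.Kak Pool.Agent.Helper6.Kak Pool.Agent.Helper81.Kak

/-! ### scales -/

theorem JJ_le {δ : ℝ} (hδ : 0 < δ) : (1 / 2 : ℝ) ^ JJ δ ≤ δ := by
  have h1 : Real.logb 2 (1 / δ) ≤ JJ δ := Nat.le_ceil _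
  rw [Real.logb_le_iff_le_rpow (by norm_num) (by positivity), Real.rpow_natCast] at h1
  rw [div_pow, one_pow, div_le_iff₀ (by positivity)]
  rw [div_le_iff₀ hδ] at h1
  linarith

theorem JJ_ge {δ : ℝ} (hδ : 0 < δ) (hδ1 : δ ≤ 1) : δ ≤ 2 * (1 / 2 : ℝ) ^ JJ δ := by
  have h0 : 0 ≤ Real.logb 2 (1 / δ) :=
    Real.logb_nonneg (by norm_num) (by rw [le_div_iff₀ hδ]; linarith)
  have h1 : (JJ δ : ℝ) < Real.logb 2 (1 / δ) + 1 := Nat.ceil_lt_add_one h0
  have h2 : (JJ δ : ℝ) - 1 < Real.logb 2 (1 / δ) := by linarith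
  rw [Real.lt_logb_iff_rpow_lt (by norm_num) (by positivity), Real.rpow_sub (by norm_num),
    Real.rpow_natCast, Real.rpow_one] at h2
  rw [div_lt_div_iff₀ (by norm_num) hδ] at h2
  rw [div_pow, one_pow, mul_one_div, le_div_iff₀ (by positivity)]
  linarith

theorem half_anti {k k' : ℕ} (h : k ≤ k') : (1 / 2 : ℝ) ^ k' ≤ (1 / 2) ^ k :=
  pow_le_pow_of_le_one (by norm_num) (by norm_num) h

theorem delta_le {δ : ℝ} (hδ : 0 < δ) (hδ1 : δ ≤ 1) {k : ℕ} (h : k ≤ JJ δ) :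
    δ ≤ 2 * (1 / 2 : ℝ) ^ k := by
  have := JJ_ge hδ hδ1
  have := half_anti h
  linarith

theorem two_half (k : ℕ) : (2 : ℝ) ^ k * (1 / 2) ^ k = 1 := by
  rw [← mul_pow]; norm_num

theorem log_half (k : ℕ) : Real.log ((1 / 2 : ℝ) ^ k) = - (k * Real.log 2) := by
  rw [Real.log_pow, one_div, Real.log_inv]; ring

variable {m M : ℕ} {G : Geo m M}

theorem M_pos (G : Geo m M) : (0 : ℝ) < M := by
  rcases Nat.eq_zero_or_pos M with h | h
  · subst h
    have := G.hM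
    norm_num at this
  · exact_mod_cast h

theorem one_le_M (G : Geo m M) : (1 : ℝ) ≤ M := by
  have h := M_pos G
  have h1 : 0 < M := by exact_mod_cast h
  exact_mod_cast h1

theorem pnt_near {l l' : G.L} {t : Fin M} (h : G.P l t = G.P l' t) (i : Fin m) :
    |(G.x l i + ht t * G.v l i) - (G.x l' i + ht t * G.v l' i)| ≤ G.δ :=
  floor_eq_near G.hδ (congrFun h i)

/-- the intersection heights of a line near `l` with a line near `l0` -/
theorem meet_near {l l' a a' : G.L} {T T' : Fin M} {k : ℕ} {E : ℝ} (hE : 0 ≤ E)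
    (h1 : G.P l T = G.P a T) (h2 : G.P l' T' = G.P a' T')
    (hang : k = JJ G.δ ∨ ∃ i, (1 / 2) ^ k < |G.v l i - G.v a i|)
    (hn : ∀ i, |G.x l i - G.x l' i| + |G.v l i - G.v l' i| + |G.x a i - G.x a' i|
      + |G.v a i - G.v a' i| ≤ E) :
    |ht T - ht T'| ≤ (2 * G.δ + E) * 2 ^ k := by
  rcases hang with rfl | ⟨i, hi⟩
  · have h3 := ht_diff T T'
    have h4 := JJ_le G.hδ
    have h5 := two_half (JJ G.δ)
    have h6 : (0 : ℝ) < 2 ^ JJ G.δ := by positivity
    have h7 : 1 ≤ G.δ * 2 ^ JJ G.δ := by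
      rw [← h5]
      nlinarith
    have h8 := G.hδ
    nlinarith
  · have n1 := pnt_near h1 i
    have n2 := pnt_near h2 i
    have n3 := hn i
    have t0 := ht_nonneg T'
    have t1 := (ht_lt_one T').le
    have key : (ht T - ht T') * (G.v l i - G.v a i)
        = ((G.x l i + ht T * G.v l i) - (G.x a i + ht T * G.v a i))
          - ((G.x l' i + ht T' * G.v l' i) - (G.x a' i + ht T' * G.v a' i))
          - (G.x l i - G.x l' i) - ht T' * (G.v l i - G.v l' i)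
          + (G.x a i - G.x a' i) + ht T' * (G.v a i - G.v a' i) := by ring
    have m1 : |ht T' * (G.v l i - G.v l' i)| ≤ |G.v l i - G.v l' i| := by
      rw [abs_mul, abs_of_nonneg t0]
      exact mul_le_of_le_one_left (abs_nonneg _) t1
    have m2 : |ht T' * (G.v a i - G.v a' i)| ≤ |G.v a i - G.v a' i| := by
      rw [abs_mul, abs_of_nonneg t0]
      exact mul_le_of_le_one_left (abs_nonneg _) t1
    have h3 : |(ht T - ht T') * (G.v l i - G.v a i)| ≤ 2 * G.δ + E := by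
      rw [key]
      rw [abs_le] at *
      constructor <;>
      linarith [n1.1, n1.2, n2.1, n2.2, m1.1, m1.2, m2.1, m2.2, neg_abs_le (G.x l i - G.x l' i),
        le_abs_self (G.x l i - G.x l' i), neg_abs_le (G.x a i - G.x a' i),
        le_abs_self (G.x a i - G.x a' i)]
    rw [abs_mul] at h3
    have h5 := two_half k
    have h6 : (0 : ℝ) < 2 ^ k := by positivity
    have h7 : |ht T - ht T'| * (1 / 2) ^ k ≤ 2 * G.δ + E :=
      (mul_le_mul_of_nonneg_left hi.le (abs_nonneg _)).trans h3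
    calc |ht T - ht T'| = |ht T - ht T'| * (1 / 2) ^ k * 2 ^ k := by
          rw [mul_assoc, mul_comm ((1 / 2 : ℝ) ^ k), h5, mul_one]
      _ ≤ (2 * G.δ + E) * 2 ^ k := mul_le_mul_of_nonneg_right h7 h6.le

theorem ht_sub (T T' : Fin M) (hM : (0 : ℝ) < M) :
    |((T : ℕ) : ℝ) - ((T' : ℕ) : ℝ)| = M * |ht T - ht T'| := by
  have : ((T : ℕ) : ℝ) - ((T' : ℕ) : ℝ) = M * (ht T - ht T') := by
    unfold ht
    field_simp
  rw [this, abs_mul, abs_of_pos hM]

section ent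

variable {Ω : Type} [Fintype Ω] {p : Ω → ℝ}

theorem Ex_add (f g : Ω → ℝ) : Ex p (fun ω => f ω + g ω) = Ex p f + Ex p g := by
  unfold Ex
  rw [← Finset.sum_add_distrib]
  exact Finset.sum_congr rfl fun _ _ => by ring

theorem Ex_sub (f g : Ω → ℝ) : Ex p (fun ω => f ω - g ω) = Ex p f - Ex p g := by
  unfold Ex
  rw [← Finset.sum_sub_distrib]
  exact Finset.sum_congr rfl fun _ _ => by ring

theorem Ex_const (hp : IsProb p) (c : ℝ) : Ex p (fun _ => c) = c := by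
  unfold Ex
  rw [← Finset.sum_mul, hp.2, one_mul]

/-- a height known up to `C M 2 ^ (k - k') / d` -/
theorem CE_scale (hp : IsProb p) (G : Geo m M) (r : Setoid Ω) (T : Ω → Fin M) (k k' : Ω → ℕ)
    (d : Ω → ℝ) {C : ℝ} (hC : 1 ≤ C) (hd0 : ∀ ω, 0 < d ω) (hd1 : ∀ ω, d ω ≤ 1)
    (hk' : ∀ ω, 0 < p ω → k' ω ≤ JJ G.δ)
    (hm : ∀ ω ω', 0 < p ω → 0 < p ω' → r ω ω' → k ω = k ω' ∧ k' ω = k' ω' ∧ d ω = d ω')
    (hT : ∀ ω ω', 0 < p ω → 0 < p ω' → r ω ω' →
      |ht (T ω) - ht (T ω')| ≤ C * (2 ^ k ω * (1 / 2) ^ k' ω) / d ω) :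
    CE p (Setoid.ker T) r ≤ Real.log M - Ex p (fun ω => ((k' ω : ℝ) - k ω) * Real.log 2)
      + Ex p (fun ω => Real.log (1 / d ω)) + Real.log (4 * C) := by
  have hM := M_pos G
  have h := CE_hgt hp r T (fun ω => M * (C * (2 ^ k ω * (1 / 2) ^ k' ω) / d ω))
    (fun ω => by have := hd0 ω; positivity) (fun ω ω' h1 h2 h3 => by
      obtain ⟨e1, e2, e3⟩ := hm ω ω' h1 h2 h3
      rw [e1, e2, e3]) (fun ω ω' h1 h2 h3 => by
      rw [ht_sub _ _ hM]
      exact mul_le_mul_of_nonneg_left (hT ω ω' h1 h2 h3) hM.le)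
  refine h.trans ?_
  have e1 : Ex p (fun ω => Real.log (2 * (M * (C * (2 ^ k ω * (1 / 2) ^ k' ω) / d ω)) + 1))
      ≤ Ex p (fun ω => (Real.log M - ((k' ω : ℝ) - k ω) * Real.log 2)
        + Real.log (1 / d ω) + Real.log (4 * C)) := by
    apply Ex_mono' hp
    intro ω h0
    have d0 := hd0 ω
    have d1 := hd1 ω
    have a1 : G.δ ≤ 2 * (1 / 2 : ℝ) ^ k' ω := delta_le G.hδ G.hδ1 (hk' ω h0)
    have a2 : 1 ≤ 2 * (M * (1 / 2 : ℝ) ^ k' ω) := by
      have := G.hM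
      nlinarith
    have a3 : (1 : ℝ) ≤ 2 ^ k ω := one_le_pow₀ (by norm_num)
    have a4 : 1 ≤ 1 / d ω := by rw [le_div_iff₀ d0]; linarith
    have a5 : 1 ≤ 2 * (M * (C * (2 ^ k ω * (1 / 2) ^ k' ω) / d ω)) := by
      have e : 2 * (M * (C * (2 ^ k ω * (1 / 2) ^ k' ω) / d ω))
          = (2 * (M * (1 / 2 : ℝ) ^ k' ω)) * (C * 2 ^ k ω * (1 / d ω)) := by
        field_simp
      rw [e]
      have b1 : 1 ≤ C * 2 ^ k ω := by nlinarith
      have b2 : 1 ≤ C * 2 ^ k ω * (1 / d ω) := by nlinarith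
      nlinarith
    have a6 : 2 * (M * (C * (2 ^ k ω * (1 / 2) ^ k' ω) / d ω)) + 1
        ≤ M * (2 ^ k ω * (1 / 2) ^ k' ω) * (1 / d ω) * (4 * C) := by
      have e : M * (2 ^ k ω * (1 / 2) ^ k' ω) * (1 / d ω) * (4 * C)
          = 2 * (2 * (M * (C * (2 ^ k ω * (1 / 2) ^ k' ω) / d ω))) := by
        field_simp
        ring
      rw [e]
      linarith
    refine (Real.log_le_log (by linarith) a6).trans (le_of_eq ?_)
    rw [Real.log_mul (by positivity) (by positivity), Real.log_mul (by positivity) (by positivity),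
      Real.log_mul (by positivity) (by positivity), Real.log_mul (by positivity) (by positivity),
      log_half, Real.log_pow]
    ring
  refine e1.trans (le_of_eq ?_)
  rw [Ex_add, Ex_add, Ex_sub, Ex_const hp, Ex_const hp]

/-- a height known up to `C δ M 2 ^ k` -/
theorem CE_gap (hp : IsProb p) (G : Geo m M) (r : Setoid Ω) (T : Ω → Fin M) (k : Ω → ℕ)
    {C : ℝ} (hC : 1 ≤ C)
    (hm : ∀ ω ω', 0 < p ω → 0 < p ω' → r ω ω' → k ω = k ω')
    (hT : ∀ ω ω', 0 < p ω → 0 < p ω' → r ω ω' → |ht (T ω) - ht (T ω')| ≤ C * G.δ * 2 ^ k ω) :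
    CE p (Setoid.ker T) r ≤ Real.log M - Ex p (fun ω => gap G.δ (k ω)) + Real.log (3 * C) := by
  have hM := M_pos G
  have hδ := G.hδ
  have h := CE_hgt hp r T (fun ω => M * (C * G.δ * 2 ^ k ω))
    (fun ω => by positivity) (fun ω ω' h1 h2 h3 => by
      rw [hm ω ω' h1 h2 h3]) (fun ω ω' h1 h2 h3 => by
      rw [ht_sub _ _ hM]
      exact mul_le_mul_of_nonneg_left (hT ω ω' h1 h2 h3) hM.le)
  refine h.trans ?_
  have e1 : Ex p (fun ω => Real.log (2 * (M * (C * G.δ * 2 ^ k ω)) + 1))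
      ≤ Ex p (fun ω => (Real.log M - gap G.δ (k ω)) + Real.log (3 * C)) := by
    apply Ex_mono' hp
    intro ω h0
    have a3 : (1 : ℝ) ≤ 2 ^ k ω := one_le_pow₀ (by norm_num)
    have a2 := G.hM
    have a5 : 1 ≤ M * (C * G.δ * 2 ^ k ω) := by
      have e : M * (C * G.δ * 2 ^ k ω) = (G.δ * M) * (C * 2 ^ k ω) := by ring
      rw [e]
      have b1 : 1 ≤ C * 2 ^ k ω := by nlinarith
      nlinarith
    have a6 : 2 * (M * (C * G.δ * 2 ^ k ω)) + 1 ≤ M * (G.δ * 2 ^ k ω) * (3 * C) := by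
      have e : M * (G.δ * 2 ^ k ω) * (3 * C) = 3 * (M * (C * G.δ * 2 ^ k ω)) := by ring
      rw [e]
      linarith
    refine (Real.log_le_log (by linarith) a6).trans (le_of_eq ?_)
    unfold gap
    rw [Real.log_mul (by positivity) (by positivity), Real.log_mul (by positivity) (by positivity),
      Real.log_mul (by positivity) (by positivity), Real.log_pow, one_div, Real.log_inv]
    ring
  refine e1.trans (le_of_eq ?_)
  rw [Ex_add, Ex_sub, Ex_const hp, Ex_const hp]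

/-- cost `c3`: the intersection height of two given lines -/
theorem CE_meet (hp : IsProb p) (G : Geo m M) (r : Setoid Ω) (l a : Ω → G.L) (T : Ω → Fin M)
    (k : Ω → ℕ)
    (hr : ∀ ω ω', 0 < p ω → 0 < p ω' → r ω ω' → k ω = k ω' ∧ l ω = l ω' ∧ a ω = a ω')
    (hP : ∀ ω, 0 < p ω → G.P (l ω) (T ω) = G.P (a ω) (T ω))
    (hang : ∀ ω, 0 < p ω → k ω = JJ G.δ ∨ ∃ i, (1 / 2) ^ k ω < |G.v (l ω) i - G.v (a ω) i|) :
    CE p (Setoid.ker T) r ≤ Real.log M - Ex p (fun ω => gap G.δ (k ω)) + Real.log 6 := by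
  have h := CE_gap hp G r T k (C := 2) (by norm_num) (fun ω ω' h1 h2 h3 => (hr ω ω' h1 h2 h3).1)
    (fun ω ω' h1 h2 h3 => by
      obtain ⟨e1, e2, e3⟩ := hr ω ω' h1 h2 h3
      have h4 := hP ω' h2
      rw [← e2, ← e3] at h4
      have := meet_near (E := 0) le_rfl (hP ω h1) h4 (hang ω h1) (fun i => by simp)
      rw [add_zero] at this
      exact this)
  norm_num at h
  exact h

/-- cost `c4`: the height `T` from the two lines and a point of the form
`P_T(l) + (c - T) / M v(a)` -/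
theorem CE_formT (hp : IsProb p) (G : Geo m M) (r : Setoid Ω) (l a : Ω → G.L) (T : Ω → Fin M)
    (c : Ω → ℤ) (k : Ω → ℕ)
    (hr : ∀ ω ω', 0 < p ω → 0 < p ω' → r ω ω' → k ω = k ω' ∧ l ω = l ω' ∧ a ω = a ω' ∧
      c ω = c ω' ∧ cell G.δ (frm G.x G.v (l ω) (T ω) (c ω - ((T ω : ℕ) : ℤ)) (G.v (a ω)))
        = cell G.δ (frm G.x G.v (l ω') (T ω') (c ω' - ((T ω' : ℕ) : ℤ)) (G.v (a ω'))))
    (hang : ∀ ω, 0 < p ω → k ω = JJ G.δ ∨ ∃ i, (1 / 2) ^ k ω < |G.v (l ω) i - G.v (a ω) i|) :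
    CE p (Setoid.ker T) r ≤ Real.log M - Ex p (fun ω => gap G.δ (k ω)) + Real.log 3 := by
  have hM := M_pos G
  have h := CE_gap hp G r T k (C := 1) le_rfl (fun ω ω' h1 h2 h3 => (hr ω ω' h1 h2 h3).1)
    (fun ω ω' h1 h2 h3 => by
      obtain ⟨e1, e2, e3, e4, e5⟩ := hr ω ω' h1 h2 h3
      rw [one_mul]
      rcases hang ω h1 with h4 | ⟨i, hi⟩
      · have h5 := two_half (JJ G.δ)
        have h6 : (0 : ℝ) < 2 ^ JJ G.δ := by positivity
        have h7 := JJ_le G.hδ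
        rw [h4]
        refine (ht_diff _ _).trans ?_
        rw [← h5]
        nlinarith
      · have h5 := floor_eq_near G.hδ (congrFun e5 i)
        rw [← e2, ← e3, ← e4] at h5
        have h6 : frm G.x G.v (l ω) (T ω) (c ω - ((T ω : ℕ) : ℤ)) (G.v (a ω)) i
            - frm G.x G.v (l ω) (T ω') (c ω - ((T ω' : ℕ) : ℤ)) (G.v (a ω)) i
            = (ht (T ω) - ht (T ω')) * (G.v (l ω) i - G.v (a ω) i) := by
          unfold frm pnt ht
          push_cast
          field_simp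
          ring
        rw [h6, abs_mul] at h5
        have h7 := two_half (k ω)
        have h8 : (0 : ℝ) < 2 ^ k ω := by positivity
        calc |ht (T ω) - ht (T ω')| = |ht (T ω) - ht (T ω')| * (1 / 2) ^ k ω * 2 ^ k ω := by
              rw [mul_assoc, mul_comm ((1 / 2 : ℝ) ^ k ω), h7, mul_one]
          _ ≤ G.δ * 2 ^ k ω := mul_le_mul_of_nonneg_right
              ((mul_le_mul_of_nonneg_left hi.le (abs_nonneg _)).trans h5) h8.le)
  norm_num at h
  exact h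

/-- cost `c8`: a point in a segment of length `8 * 2 ^ (-k)` -/
theorem CE_segment (hp : IsProb p) (G : Geo m M) (r : Setoid Ω) (u α β : Ω → Fin m → ℝ) (s : Ω → ℝ)
    (k : Ω → ℕ) (hk : ∀ ω, 0 < p ω → k ω ≤ JJ G.δ)
    (hr : ∀ ω ω', 0 < p ω → 0 < p ω' → r ω ω' → k ω = k ω' ∧ α ω = α ω' ∧ β ω = β ω')
    (hu : ∀ ω, 0 < p ω → ∀ i, u ω i = α ω i + s ω * β ω i)
    (hs : ∀ ω, 0 < p ω → 0 ≤ s ω ∧ s ω ≤ 1)
    (hβ : ∀ ω, 0 < p ω → ∀ i, |β ω i| ≤ 8 * (1 / 2) ^ k ω) :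
    CE p (Setoid.ker (fun ω => cell G.δ (u ω))) r ≤
      Ex p (fun ω => gap G.δ (k ω)) + (Real.log 18 + m * Real.log 5) := by
  have hδ := G.hδ
  set N : Ω → ℤ := fun ω => ⌊s ω * (8 * (1 / 2) ^ k ω / G.δ)⌋ with hN
  have h1 : CE p (Setoid.ker (fun ω => cell G.δ (u ω))) r
      ≤ CE p (Setoid.ker (fun ω => cell G.δ (u ω)) ⊓ Setoid.ker N) r := CE_left hp _ _ _
  rw [CE_chain] at h1
  -- the index
  have h2 : CE p (Setoid.ker N) r ≤ Ex p (fun ω => gap G.δ (k ω)) + Real.log 18 := by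
    have h := CE_int hp r N (fun ω => if 0 < p ω then 8 * (1 / 2) ^ k ω / G.δ else 0)
      (fun ω => by split_ifs <;> positivity) (fun ω ω' g1 g2 g3 => by
        rw [if_pos g1, if_pos g2, (hr ω ω' g1 g2 g3).1]) (fun ω ω' g1 g2 g3 => by
        rw [if_pos g1]
        obtain ⟨s0, s1⟩ := hs ω g1
        obtain ⟨s0', s1'⟩ := hs ω' g2
        have hk := (hr ω ω' g1 g2 g3).1
        have X0 : 0 ≤ 8 * (1 / 2 : ℝ) ^ k ω / G.δ := by positivity
        have b1 : (0 : ℤ) ≤ N ω := Int.floor_nonneg.2 (mul_nonneg s0 X0)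
        have b2 : (0 : ℤ) ≤ N ω' := by
          apply Int.floor_nonneg.2
          rw [← hk]
          exact mul_nonneg s0' X0
        have b3 : (N ω : ℝ) ≤ 8 * (1 / 2) ^ k ω / G.δ :=
          (Int.floor_le _).trans (mul_le_of_le_one_left X0 s1)
        have b4 : (N ω' : ℝ) ≤ 8 * (1 / 2) ^ k ω / G.δ := by
          refine (Int.floor_le _).trans ?_
          rw [← hk]
          exact mul_le_of_le_one_left X0 s1'
        have b1' : (0 : ℝ) ≤ N ω := by exact_mod_cast b1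
        have b2' : (0 : ℝ) ≤ N ω' := by exact_mod_cast b2
        rw [abs_le]
        constructor <;> linarith)
    refine h.trans ?_
    have e1 : Ex p (fun ω => Real.log (2 * (if 0 < p ω then 8 * (1 / 2) ^ k ω / G.δ else 0) + 1))
        ≤ Ex p (fun ω => gap G.δ (k ω) + Real.log 18) := by
      apply Ex_mono' hp
      intro ω h0
      simp only [if_pos h0]
      have a1 := delta_le G.hδ G.hδ1 (hk ω h0)
      have a2 : 1 ≤ 2 * ((1 / 2 : ℝ) ^ k ω / G.δ) := by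
        rw [← mul_div_assoc, le_div_iff₀ hδ]
        linarith
      have a3 : 2 * (8 * (1 / 2 : ℝ) ^ k ω / G.δ) + 1 ≤ (1 / 2) ^ k ω / G.δ * 18 := by
        have e : 2 * (8 * (1 / 2 : ℝ) ^ k ω / G.δ) = 16 * ((1 / 2) ^ k ω / G.δ) := by ring
        rw [e]
        linarith
      refine (Real.log_le_log (by positivity) a3).trans (le_of_eq ?_)
      rw [Real.log_mul (by positivity) (by norm_num), Real.log_div (by positivity) hδ.ne', log_half]
      unfold gap
      rw [one_div, Real.log_inv]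
      ring
    refine e1.trans (le_of_eq ?_)
    rw [Ex_add, Ex_const hp]
  -- the point
  have h3 : CE p (Setoid.ker (fun ω => cell G.δ (u ω))) (Setoid.ker N ⊓ r) ≤ m * Real.log 5 := by
    have h := CE_cell G.hδ hp (Setoid.ker N ⊓ r) u (fun _ => 1) (fun _ => zero_le_one)
      (fun _ _ _ _ _ => rfl) (fun ω ω' g1 g2 g3 i => by
        obtain ⟨g4, g5⟩ := g3
        obtain ⟨e1, e2, e3⟩ := hr ω ω' g1 g2 g5
        have e4 : N ω = N ω' := g4
        rw [hu ω g1, hu ω' g2, ← e2, ← e3, one_mul]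
        have e5 : α ω i + s ω * β ω i - (α ω i + s ω' * β ω i) = (s ω - s ω') * β ω i := by ring
        rw [e5, abs_mul]
        have e6 : |s ω * (8 * (1 / 2) ^ k ω / G.δ) - s ω' * (8 * (1 / 2) ^ k ω / G.δ)| ≤ 1 := by
          simp only [hN] at e4
          rw [← e1] at e4
          have a1 := Int.floor_le (s ω * (8 * (1 / 2) ^ k ω / G.δ))
          have a2 := Int.lt_floor_add_one (s ω * (8 * (1 / 2) ^ k ω / G.δ))
          have a3 := Int.floor_le (s ω' * (8 * (1 / 2) ^ k ω / G.δ))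
          have a4 := Int.lt_floor_add_one (s ω' * (8 * (1 / 2) ^ k ω / G.δ))
          rw [e4] at a1 a2
          rw [abs_le]
          constructor <;> linarith
        rw [← sub_mul, abs_mul, abs_of_nonneg (by positivity : 0 ≤ 8 * (1 / 2 : ℝ) ^ k ω / G.δ),
          ← mul_div_assoc, div_le_one hδ] at e6
        exact (mul_le_mul_of_nonneg_left (hβ ω g1 i) (abs_nonneg _)).trans e6)
    rw [Ex_const hp] at h
    norm_num at h
    exact h
  linarith

/-! ### tubes -/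

theorem sc_le (G : Geo m M) (l l' : G.L) : sc G l l' ≤ JJ G.δ := by
  unfold sc
  exact Nat.findGreatest_le _

theorem sc_spec (G : Geo m M) (l l' : G.L) (i : Fin m) :
    |G.v l i - G.v l' i| ≤ 2 * (1 / 2) ^ sc G l l' := by
  classical
  unfold sc
  have h0 : ∀ i, |G.v l i - G.v l' i| ≤ 2 * (1 / 2) ^ 0 := by
    intro i
    have h1 := abs_le.1 (G.hv l i)
    have h2 := abs_le.1 (G.hv l' i)
    rw [abs_le]
    constructor <;> norm_num <;> linarith [h1.1, h1.2, h2.1, h2.2]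
  exact Nat.findGreatest_spec (P := fun k => ∀ i, |G.v l i - G.v l' i| ≤ 2 * (1 / 2) ^ k)
    (Nat.zero_le _) h0 i

/-- lines with the same tube are close to each other -/
theorem tube_near {l l' a a' : G.L} {S S' : Fin M} (h1 : G.P l S = G.P l' S)
    (h2 : G.P a S' = G.P a' S') (hs : sc G l l' = sc G a a') (ht' : tb G l l' = tb G a a')
    (i : Fin m) : |G.x l i - G.x a i| ≤ 5 * (1 / 2) ^ sc G l l' ∧
      |G.v l i - G.v a i| ≤ 3 * (1 / 2) ^ sc G l l' := by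
  have hE0 : (0 : ℝ) < (1 / 2) ^ sc G l l' := by positivity
  have cnear : ∀ b c : G.L, cc G (sc G l l') b = cc G (sc G l l') c →
      |G.x b i - G.x c i| ≤ (1 / 2) ^ sc G l l' ∧ |G.v b i - G.v c i| ≤ (1 / 2) ^ sc G l l' := by
    intro b c h
    unfold cc at h
    rw [Prod.mk.injEq] at h
    exact ⟨floor_eq_near hE0 (congrFun h.1 i), floor_eq_near hE0 (congrFun h.2 i)⟩
  unfold tb at ht'
  rw [← hs, Sym2.eq_iff] at ht'
  rcases ht' with ⟨h3, h4⟩ | ⟨h3, h4⟩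
  · obtain ⟨n1, n2⟩ := cnear _ _ h3
    exact ⟨by linarith, by linarith⟩
  · obtain ⟨n1, n2⟩ := cnear _ _ h3
    -- `l` is near `a'`, and `a'` is near `a`
    have n3 := sc_spec G a a' i
    rw [← hs] at n3
    have n4 := pnt_near h2 i
    have n5 := delta_le G.hδ G.hδ1 (sc_le G l l')
    have t0 := ht_nonneg S'
    have t1 := (ht_lt_one S').le
    have n6 : |ht S' * (G.v a i - G.v a' i)| ≤ 2 * (1 / 2) ^ sc G l l' := by
      rw [abs_mul, abs_of_nonneg t0]
      exact (mul_le_of_le_one_left (abs_nonneg _) t1).trans n3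
    rw [abs_le] at n1 n2 n3 n4 n6 ⊢
    constructor
    · constructor <;> nlinarith [n1.1, n1.2, n4.1, n4.2, n6.1, n6.2]
    · rw [abs_le]
      constructor <;> linarith [n2.1, n2.2, n3.1, n3.2]

/-- costs `d7`, `d8`: the intersection height of a line with a line of a given tube -/
theorem CE_tube (hp : IsProb p) (G : Geo m M) (r : Setoid Ω) (l a a' : Ω → G.L)
    (T S : Ω → Fin M) (k : Ω → ℕ)
    (hr : ∀ ω ω', 0 < p ω → 0 < p ω' → r ω ω' → k ω = k ω' ∧ l ω = l ω' ∧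
      sc G (a ω) (a' ω) = sc G (a ω') (a' ω') ∧ tb G (a ω) (a' ω) = tb G (a ω') (a' ω'))
    (hP : ∀ ω, 0 < p ω → G.P (l ω) (T ω) = G.P (a ω) (T ω))
    (hS : ∀ ω, 0 < p ω → G.P (a ω) (S ω) = G.P (a' ω) (S ω))
    (hang : ∀ ω, 0 < p ω → k ω = JJ G.δ ∨ ∃ i, (1 / 2) ^ k ω < |G.v (l ω) i - G.v (a ω) i|) :
    CE p (Setoid.ker T) r ≤ Real.log M
      - Ex p (fun ω => ((sc G (a ω) (a' ω) : ℝ) - k ω) * Real.log 2) + Real.log 48 := by
  have h := CE_scale hp G r T k (fun ω => sc G (a ω) (a' ω)) (fun _ => 1) (C := 12) (by norm_num)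
    (fun _ => one_pos) (fun _ => le_rfl) (fun ω _ => sc_le G _ _)
    (fun ω ω' h1 h2 h3 => ⟨(hr ω ω' h1 h2 h3).1, (hr ω ω' h1 h2 h3).2.2.1, rfl⟩)
    (fun ω ω' h1 h2 h3 => by
      obtain ⟨e1, e2, e3, e4⟩ := hr ω ω' h1 h2 h3
      have hE0 : (0 : ℝ) < (1 / 2) ^ sc G (a ω) (a' ω) := by positivity
      have h4 := meet_near (E := 8 * (1 / 2) ^ sc G (a ω) (a' ω)) (by positivity) (hP ω h1)
        (hP ω' h2) (hang ω h1) (fun i => by
          obtain ⟨n1, n2⟩ := tube_near (hS ω h1) (hS ω' h2) e3 e4 i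
          rw [e2, sub_self, sub_self, abs_zero]
          linarith)
      refine h4.trans ?_
      have h5 := delta_le G.hδ G.hδ1 (sc_le G (a ω) (a' ω))
      have h6 : (0 : ℝ) < 2 ^ k ω := by positivity
      rw [div_one]
      have h7 : 2 * G.δ + 8 * (1 / 2) ^ sc G (a ω) (a' ω) ≤ 12 * (1 / 2) ^ sc G (a ω) (a' ω) := by
        linarith
      calc (2 * G.δ + 8 * (1 / 2) ^ sc G (a ω) (a' ω)) * 2 ^ k ω
          ≤ 12 * (1 / 2) ^ sc G (a ω) (a' ω) * 2 ^ k ω := mul_le_mul_of_nonneg_right h7 h6.le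
        _ = 12 * (2 ^ k ω * (1 / 2) ^ sc G (a ω) (a' ω)) := by ring)
  rw [div_one, Real.log_one, Ex_const hp, add_zero] at h
  norm_num at h
  exact h

end ent

end Pool.Agent.Helper80.Kak
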