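import Pool.Agent.Helper6.Kak.HDefs
import Pool.Agent.Helper80.Kak.Geo

/-!
# Lemma U: the coarse point of a line meeting a given line has large entropy
-/

set_option autoImplicit false

namespace Pool.Agent.Helper80.Kak

open Pool.Agent.Helper8.Kak Pool.Agent.Helper6.Kak Pool.Agent.Helper81.Kak

theorem two_pts {X D h1 h2 ε d : ℝ} (hd : 0 < d) (hd1 : d ≤ 1) (hh : d = |h1 - h2|)
    (h0 : 0 ≤ h1) (h1' : h1 ≤ 1) (a1 : |X + h1 * D| ≤ ε) (a2 : |X + h2 * D| ≤ ε) :
    |X| + |D| ≤ 5 * ε / d := by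
  have hε : 0 ≤ ε := (abs_nonneg _).trans a1
  have b1 : |(h1 - h2) * D| ≤ 2 * ε := by
    have e : (h1 - h2) * D = (X + h1 * D) - (X + h2 * D) := by ring
    rw [e, abs_le]
    rw [abs_le] at a1 a2
    constructor <;> linarith [a1.1, a1.2, a2.1, a2.2]
  rw [abs_mul, ← hh] at b1
  have b2 : |D| ≤ 2 * ε / d := by
    rw [le_div_iff₀ hd]
    linarith
  have b3 : |h1 * D| ≤ |D| := by
    rw [abs_mul, abs_of_nonneg h0]
    exact mul_le_of_le_one_left (abs_nonneg _) h1'
  have b4 : |X| ≤ ε + |D| := by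
    have e : X = (X + h1 * D) - h1 * D := by ring
    rw [e]
    exact (abs_sub _ _).trans (by linarith)
  have b5 : ε ≤ ε / d := by
    rw [le_div_iff₀ hd]
    nlinarith
  have b6 : 5 * ε / d = ε / d + 2 * (2 * ε / d) := by ring
  rw [b6]
  linarith

theorem lemU (m : ℕ) : LemU m := by
  refine ⟨4, by norm_num, ?_⟩
  intro M G Ω _ p hp K l l0 b T k kz κ1 κ2 hk hkz hP hang h1 h2
  have hM := M_pos G
  set U : Ω → G.L × Fin M := fun ω => (l ω, T ω) with hU
  set r : Setoid Ω := K ⊓ Setoid.ker l0 with hr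
  set W : Ω → Fin m → ℤ := fun ω => cell ((1 / 2) ^ kz ω) (pnt G.x G.v (l ω) (b ω)) with hW
  set q := cp p r U with hq
  have hqp : IsProb q := cp_prob r U hp
  have hf : MP q p Prod.fst := cp_fst r U hp
  have hs : MP q p Prod.snd := cp_snd r U hp
  -- the height `b` given everything
  have e1 : CE p (Setoid.ker b) (Setoid.ker U ⊓ r)
      = CE p (Setoid.ker b) (K ⊓ Setoid.ker l ⊓ Setoid.ker l0 ⊓ Setoid.ker T) := by
    refine CE_congr' hp (fun _ _ _ _ _ => Iff.rfl) fun ω ω' _ _ => ?_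
    constructor
    · rintro ⟨a1, a2, a3⟩
      have a4 : l ω = l ω' := congrArg Prod.fst a1
      have a5 : T ω = T ω' := congrArg Prod.snd a1
      exact ⟨⟨⟨a2, a4⟩, a3⟩, a5⟩
    · rintro ⟨⟨⟨a2, a4⟩, a3⟩, a5⟩
      have a4' : l ω = l ω' := a4
      have a5' : T ω = T ω' := a5
      exact ⟨Prod.ext a4' a5', a2, a3⟩
  have h3 : Real.log M - κ1 ≤ CE p (Setoid.ker b) (Setoid.ker U ⊓ r) := by rw [e1]; exact h1
  have κ1n : 0 ≤ κ1 := by
    have := CE_height_le hp b (Setoid.ker U ⊓ r)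
    linarith
  have κ2n : 0 ≤ κ2 := by
    have := CE_height_le hp T r
    linarith
  have h4 := cp_CE (p := p) r U hp b
  have h5 : CE q (Setoid.ker (fun x => b x.1)) (Setoid.ker (fun x => U x.1) ⊓ Setoid.comap Prod.fst r)
      = CE p (Setoid.ker b) (Setoid.ker U ⊓ r) := CE_MP hf (Setoid.ker b) (Setoid.ker U ⊓ r)
  have h6 : CE q (Setoid.ker (fun x => T x.1)) (Setoid.comap Prod.fst r) = CE p (Setoid.ker T) r :=
    CE_MP hf (Setoid.ker T) r
  -- the two points
  have hlink : ∀ x : Ω × Ω, 0 < q x → 0 < p x.1 ∧ 0 < p x.2 ∧ K x.1 x.2 ∧ l0 x.1 = l0 x.2 ∧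
      l x.1 = l x.2 ∧ T x.1 = T x.2 := by
    intro x hx
    obtain ⟨⟨a1, a2⟩, a3⟩ := cp_link r U hx
    exact ⟨hf.pos hqp.1 hx, hs.pos hqp.1 hx, a1, a2, congrArg Prod.fst a3, congrArg Prod.snd a3⟩
  have w1 : CE q (Setoid.ker (fun x => W x.1)) (Setoid.ker (fun x => b x.1) ⊓
      (Setoid.ker (fun x => b x.2) ⊓ Setoid.comap Prod.fst r)) ≤ CE p (Setoid.ker W)
        (K ⊓ Setoid.ker b) := by
    rw [← CE_MP hf (Setoid.ker W) (K ⊓ Setoid.ker b)]
    refine CE_anti hqp fun x y _ _ h => ?_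
    exact ⟨h.2.2.1, h.1⟩
  have w2 : CE q (Setoid.ker (fun x => W x.2)) (Setoid.ker (fun x => b x.1) ⊓
      (Setoid.ker (fun x => b x.2) ⊓ Setoid.comap Prod.fst r)) ≤ CE p (Setoid.ker W)
        (K ⊓ Setoid.ker b) := by
    rw [← CE_MP hs (Setoid.ker W) (K ⊓ Setoid.ker b)]
    refine CE_anti hqp fun x y hx hy h => ?_
    have k1 := hlink x hx
    have k2 := hlink y hy
    exact ⟨K.trans (K.symm k1.2.2.1) (K.trans h.2.2.1 k2.2.2.1), h.2.1⟩
  -- the distance of the two heights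
  have hcl := close hqp (Setoid.ker (fun x => b x.1) ⊓ (Setoid.ker (fun x => U x.1) ⊓
      Setoid.comap Prod.fst r)) (fun x => b x.1) (fun x => b x.2) (fun x y _ _ h => h.1)
  have h7 : Ex q (fun x => Real.log (1 / dst (b x.2) (b x.1))) ≤
      2 * (Real.log M + Real.log 5 - CE q (Setoid.ker (fun x => b x.2))
        (Setoid.ker (fun x => b x.1) ⊓ (Setoid.ker (fun x => U x.1) ⊓
      Setoid.comap Prod.fst r))) := hcl
  -- the intersection height
  have h8 := CE_scale hqp G (Setoid.ker (fun x => W x.1) ⊓ (Setoid.ker (fun x => W x.2) ⊓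
      (Setoid.ker (fun x => b x.1) ⊓ (Setoid.ker (fun x => b x.2) ⊓ Setoid.comap Prod.fst r))))
      (fun x => T x.1) (fun x => k x.1) (fun x => kz x.1) (fun x => dst (b x.2) (b x.1)) (C := 9)
      (by norm_num) (fun x => dst_pos _ _) (fun x => dst_le_one _ _)
      (fun x hx => hkz _ (hlink x hx).1) (fun x y hx hy h => by
        obtain ⟨g1, g2, g3, g4, g5⟩ := h
        have g3' : b x.1 = b y.1 := g3
        have g4' : b x.2 = b y.2 := g4
        obtain ⟨c1, c2⟩ := hk _ _ (hlink x hx).1 (hlink y hy).1 g5.1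
        exact ⟨c1, c2, by rw [g3', g4']⟩) (fun x y hx hy h => by
        obtain ⟨g1, g2, g3, g4, g5⟩ := h
        have g3' : b x.1 = b y.1 := g3
        have g4' : b x.2 = b y.2 := g4
        have g5' : l0 x.1 = l0 y.1 := g5.2
        obtain ⟨x1, x2, x3, x4, x5, x6⟩ := hlink x hx
        obtain ⟨y1, y2, y3, y4, y5, y6⟩ := hlink y hy
        obtain ⟨c1, c2⟩ := hk _ _ x1 y1 g5.1
        obtain ⟨c3, c4⟩ := hk _ _ x1 x2 x3
        obtain ⟨c5, c6⟩ := hk _ _ y1 y2 y3
        have hε : (0 : ℝ) < (1 / 2) ^ kz x.1 := by positivity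
        have h2k : (0 : ℝ) < 2 ^ k x.1 := by positivity
        have hδ := delta_le G.hδ G.hδ1 (hkz _ x1)
        have hd0 := dst_pos (b x.2) (b x.1)
        have hd1 := dst_le_one (b x.2) (b x.1)
        by_cases hb : b x.2 = b x.1
        · -- the two heights coincide
          have hk1 : (1 : ℝ) ≤ 2 ^ k x.1 := one_le_pow₀ (by norm_num)
          have hd : dst (b x.2) (b x.1) = 1 / M := by rw [hb, dst_self]
          rw [hd]
          refine (ht_diff _ _).trans ?_
          have e : 9 * (2 ^ k x.1 * (1 / 2) ^ kz x.1) / (1 / (M : ℝ))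
              = 9 * 2 ^ k x.1 * (M * (1 / 2) ^ kz x.1) := by
            field_simp
          rw [e]
          have a2 : 1 ≤ 2 * (M * (1 / 2 : ℝ) ^ kz x.1) := by
            have := G.hM
            nlinarith
          nlinarith
        · have hd := dst_eq_of_ne hb
          have hnear : ∀ i, |G.x (l x.1) i - G.x (l y.1) i| + |G.v (l x.1) i - G.v (l y.1) i|
              ≤ 5 * (1 / 2) ^ kz x.1 / dst (b x.2) (b x.1) := by
            intro i
            have a1 : W x.1 = W y.1 := g1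
            have a2 : W x.2 = W y.2 := g2
            simp only [hW] at a1 a2
            rw [← c2, ← g3'] at a1
            rw [← c6, ← c4, ← c2, ← x5, ← y5, ← g4'] at a2
            have b1 := floor_eq_near hε (congrFun a1 i)
            have b2 := floor_eq_near hε (congrFun a2 i)
            unfold pnt at b1 b2
            refine two_pts (h1 := ht (b x.2)) (h2 := ht (b x.1)) hd0 hd1 hd (ht_nonneg _)
              (ht_lt_one _).le ?_ ?_
            · have e : G.x (l x.1) i - G.x (l y.1) i + ht (b x.2) * (G.v (l x.1) i - G.v (l y.1) i)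
                  = G.x (l x.1) i + ht (b x.2) * G.v (l x.1) i
                    - (G.x (l y.1) i + ht (b x.2) * G.v (l y.1) i) := by ring
              rw [e]
              exact b2
            · have e : G.x (l x.1) i - G.x (l y.1) i + ht (b x.1) * (G.v (l x.1) i - G.v (l y.1) i)
                  = G.x (l x.1) i + ht (b x.1) * G.v (l x.1) i
                    - (G.x (l y.1) i + ht (b x.1) * G.v (l y.1) i) := by ring
              rw [e]
              exact b1
          have hm := meet_near (E := 5 * (1 / 2) ^ kz x.1 / dst (b x.2) (b x.1)) (by positivity)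
            (hP _ x1) (hP _ y1) (hang _ x1) (fun i => by
              rw [g5', sub_self, sub_self, abs_zero]
              linarith [hnear i])
          refine hm.trans ?_
          have e : 9 * (2 ^ k x.1 * (1 / 2) ^ kz x.1) / dst (b x.2) (b x.1)
              = (4 * ((1 / 2) ^ kz x.1 / dst (b x.2) (b x.1))
                + 5 * (1 / 2) ^ kz x.1 / dst (b x.2) (b x.1)) * 2 ^ k x.1 := by ring
          rw [e]
          apply mul_le_mul_of_nonneg_right _ h2k.le
          have a1 : (1 / 2 : ℝ) ^ kz x.1 ≤ (1 / 2) ^ kz x.1 / dst (b x.2) (b x.1) := by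
            rw [le_div_iff₀ hd0]
            nlinarith
          linarith)
  have h9 : Ex q (fun x => ((kz x.1 : ℝ) - k x.1) * Real.log 2)
      = Ex p (fun ω => ((kz ω : ℝ) - k ω) * Real.log 2) :=
    Ex_MP hf (fun ω => ((kz ω : ℝ) - k ω) * Real.log 2)
  rw [h9] at h8
  -- bookkeeping
  have c1 := CE_height_le hqp (fun x : Ω × Ω => b x.2) (Setoid.comap Prod.fst r)
  have c2 := CE_height_le hqp (fun x : Ω × Ω => b x.1) (Setoid.ker (fun x : Ω × Ω => b x.2) ⊓
    Setoid.comap Prod.fst r)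
  have c3 : CE q (Setoid.ker (fun x => b x.2)) (Setoid.ker (fun x => b x.1) ⊓
      (Setoid.ker (fun x => U x.1) ⊓ Setoid.comap Prod.fst r))
      ≤ CE q (Setoid.ker (fun x => b x.2)) (Setoid.ker (fun x => b x.1) ⊓
      (Setoid.ker (fun x => T x.1) ⊓ Setoid.comap Prod.fst r)) := by
    refine CE_anti hqp fun x y _ _ h => ⟨h.1, ?_, h.2.2⟩
    exact congrArg Prod.snd h.2.1
  have c4 : CE q (Setoid.ker (fun x => b x.1)) (Setoid.ker (fun x => U x.1) ⊓
      Setoid.comap Prod.fst r) ≤ CE q (Setoid.ker (fun x => b x.1)) (Setoid.ker (fun x => T x.1) ⊓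
      Setoid.comap Prod.fst r) := by
    refine CE_anti hqp fun x y _ _ h => ⟨?_, h.2⟩
    exact congrArg Prod.snd h.1
  have hlog : Real.log 5 + Real.log 6 ≤ 4 := by
    rw [← Real.log_mul (by norm_num) (by norm_num), Real.log_le_iff_le_exp (by norm_num)]
    have a1 : (2.7182818283 : ℝ) < Real.exp 1 := Real.exp_one_gt_d9
    have a2 : Real.exp 4 = Real.exp 1 ^ 4 := by rw [← Real.exp_nat_mul]; norm_num
    rw [a2]
    have a3 : (2.7 : ℝ) ^ 4 ≤ Real.exp 1 ^ 4 := pow_le_pow_left₀ (by norm_num) (by linarith) 4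
    norm_num at a3 ⊢
    linarith
  have hlog2 : Real.log (4 * 9) = 2 * Real.log 6 := by
    have e : (4 * 9 : ℝ) = 6 ^ 2 := by norm_num
    rw [e, Real.log_pow]
    norm_num
  rw [hlog2] at h8
  have goalW : Setoid.ker (fun ω => cell ((1 / 2) ^ kz ω) (pnt G.x G.v (l ω) (b ω)))
      = Setoid.ker W := rfl
  rw [goalW]
  rw [← hq] at h4
  generalize CE p (Setoid.ker W) (K ⊓ Setoid.ker b) = cw at *
  generalize Ex p (fun ω => ((kz ω : ℝ) - k ω) * Real.log 2) = ek at *
  generalize Ex q (fun x => Real.log (1 / dst (b x.2) (b x.1))) = ed at *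
  clear_value q
  generalize Setoid.ker (fun x : Ω × Ω => U x.1) = U1 at *
  generalize Setoid.ker (fun x : Ω × Ω => W x.1) = W1 at *
  generalize Setoid.ker (fun x : Ω × Ω => W x.2) = W2 at *
  generalize Setoid.ker (fun x : Ω × Ω => b x.1) = X1 at *
  generalize Setoid.ker (fun x : Ω × Ω => b x.2) = X2 at *
  generalize Setoid.ker (fun x : Ω × Ω => T x.1) = T1 at *
  generalize Setoid.comap Prod.fst r = ρ at *
  -- T given both heights
  have d1 : CE q T1 (X1 ⊓ (X2 ⊓ ρ)) = CE q T1 ρ + (CE q X2 (X1 ⊓ (T1 ⊓ ρ)) + CE q X1 (T1 ⊓ ρ))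
      - (CE q X1 (X2 ⊓ ρ) + CE q X2 ρ) := by
    unfold CE
    have e1 : T1 ⊓ (X1 ⊓ (X2 ⊓ ρ)) = X2 ⊓ (X1 ⊓ (T1 ⊓ ρ)) := by
      rw [inf_left_comm T1 X1, inf_left_comm T1 X2, inf_left_comm X1 X2]
    rw [e1]
    ring
  have d2 : CE q T1 (X1 ⊓ (X2 ⊓ ρ)) ≤ CE q (T1 ⊓ (W1 ⊓ W2)) (X1 ⊓ (X2 ⊓ ρ)) := CE_left hqp _ _ _
  have d3 : CE q (T1 ⊓ (W1 ⊓ W2)) (X1 ⊓ (X2 ⊓ ρ))
      = CE q T1 (W1 ⊓ (W2 ⊓ (X1 ⊓ (X2 ⊓ ρ)))) + CE q (W1 ⊓ W2) (X1 ⊓ (X2 ⊓ ρ)) := by
    rw [CE_chain, inf_assoc]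
  have d4 := CE_le_inf hqp W1 W2 (X1 ⊓ (X2 ⊓ ρ))
  linarith

end Pool.Agent.Helper80.Kak
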